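import Pool.Agent.N630.Slab.Reduce

set_option autoImplicit false

/-!
# One slab: a more precise bound
-/

open Finset Filter Topology

namespace Pool.Agent.N630.Slab

open Pool.Agent.TH84.HC
open Pool.Agent.PZ871 (E)

variable {d : ℕ}

/-- the sign vector of a Boolean vector -/
def sg (σ : Fin d → Bool) : Fin d → ℝ := fun b => if σ b then 1 else -1

theorem sg_or (σ : Fin d → Bool) (b : Fin d) : sg σ b = 1 ∨ sg σ b = -1 := by
  unfold sg
  split_ifs
  · exact Or.inl rfl
  · exact Or.inr rfl

theorem exists_sg (y : Fin d → ℝ) (hy : ∀ b, y b = 1 ∨ y b = -1) : ∃ σ, sg σ = y := by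
  classical
  refine ⟨fun b => decide (y b = 1), ?_⟩
  funext b
  simp only [sg, decide_eq_true_eq]
  rcases hy b with h | h
  · rw [if_pos h, h]
  · rw [if_neg (by rw [h]; norm_num), h]

/-- the coordinate functional -/
noncomputable def co (b : Fin d) : E d →L[ℝ] ℝ := EuclideanSpace.proj b

theorem co_apply (b : Fin d) (x : E d) : co b x = x b := rfl

/-- the functional with given coefficients -/
noncomputable def lf (c : Fin d → ℝ) : E d →L[ℝ] ℝ := ∑ b, c b • co b

theorem lf_apply (c : Fin d → ℝ) (x : E d) : lf c x = ∑ b, c b * x b := by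
  simp only [lf, _root_.sum_apply, smul_apply, co_apply, smul_eq_mul]

/-- the data of the cube and one slab -/
noncomputable def oneData (c : Fin d → ℝ) (n : ℝ) (hc : ∀ b, |c b| ≤ 1) : Data d where
  φ := co
  m := fun _ => 0
  ψ := ![lf c, 0]
  n := ![n, 0]
  C := ![c, 0]
  e := fun k => EuclideanSpace.single k (1:ℝ)
  dual := by
    intro b k
    rw [co_apply]
    simp
  le := by
    intro j b
    fin_cases j
    · exact hc b
    · simp
  sum := by
    intro j x
    fin_cases j
    · exact lf_apply c x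
    · simp

theorem one_K (c : Fin d → ℝ) (n : ℝ) (hc : ∀ b, |c b| ≤ 1) (x : E d) :
    x ∈ (oneData c n hc).K ↔ (∀ b, |x b| ≤ 1) ∧ |lf c x - n| ≤ 1 := by
  constructor
  · rintro ⟨h1, h2⟩
    refine ⟨fun b => ?_, h2 0⟩
    have : |co b x - 0| ≤ 1 := h1 b
    rwa [sub_zero] at this
  · rintro ⟨h1, h2⟩
    refine ⟨fun b => ?_, fun j => ?_⟩
    · show |co b x - 0| ≤ 1
      rw [sub_zero]
      exact h1 b
    · fin_cases j
      · exact h2
      · simp [oneData]

theorem one_compact (c : Fin d → ℝ) (n : ℝ) (hc : ∀ b, |c b| ≤ 1) :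
    IsCompact (oneData c n hc).K := by
  have e : (oneData c n hc).K = (⋂ b, {x : E d | |x b| ≤ 1}) ∩ {x : E d | |lf c x - n| ≤ 1} := by
    ext x
    rw [one_K]
    simp
  rw [e]
  apply Metric.isCompact_of_isClosed_isBounded
  · refine (isClosed_iInter fun b => ?_).inter ?_
    · exact isClosed_le (by fun_prop) continuous_const
    · exact isClosed_le (by fun_prop) continuous_const
  · refine (Metric.isBounded_closedBall (x := (0 : E d)) (r := Real.sqrt d)).subset ?_
    rintro x ⟨hx, -⟩
    rw [mem_closedBall_zero_iff, EuclideanSpace.norm_eq]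
    apply Real.sqrt_le_sqrt
    calc ∑ i, ‖x i‖ ^ 2 ≤ ∑ _i : Fin d, (1:ℝ) := by
          refine Finset.sum_le_sum fun i _ => ?_
          rw [Real.norm_eq_abs]
          have : |x i| ≤ 1 := Set.mem_iInter.1 hx i
          have h0 := abs_nonneg (x i)
          nlinarith
      _ = d := by simp

theorem one_slab (c : Fin d → ℝ) (n : ℝ) (hc : ∀ b, |c b| ≤ 1) (K : Set (E d))
    (hK : K = {x | (∀ b, |x b| ≤ 1) ∧ |∑ b, c b * x b - n| ≤ 1}) (hi : (interior K).Nonempty)
    (ht : ∃ ξ ∈ K, ∑ b, c b * ξ b - n = 1) :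
    ∃ T : Finset (E d),
      T.card ≤ (univ.filter fun σ : Fin d → Bool => -1 ≤ ∑ b, c b * sg σ b - n).card ∧
      K ⊆ ⋃ t ∈ T, (fun x => t + x) '' interior K := by
  classical
  set D := oneData c n hc with hD
  set l : E d →L[ℝ] ℝ := lf c with hldef
  have hl : ∀ x : E d, l x = ∑ b, c b * x b := lf_apply c
  have hKD : K = D.K := by
    ext x
    rw [hK, hD, one_K, lf_apply]
    rfl
  have hcomp : IsCompact K := by rw [hKD]; exact one_compact c n hc
  have hconv : Convex ℝ K := by rw [hKD]; exact D.convex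
  by_cases hc0 : c = 0
  · -- the cube
    obtain ⟨ξ, hξ, hξ1⟩ := ht
    have hn : n = -1 := by
      simp only [hc0, Pi.zero_apply, zero_mul, Finset.sum_const_zero] at hξ1
      linarith
    have hcard : (univ.filter fun σ : Fin d → Bool => -1 ≤ ∑ b, c b * sg σ b - n).card = 2 ^ d := by
      rw [Finset.filter_true_of_mem]
      · simp
      · intro σ _
        simp [hc0, hn]
    rw [hcard]
    refine few_slabs (ι := Fin d) (by simp) co (fun _ => Set.Icc (-1) 1)
      (fun _ => Set.ordConnected_Icc) K ?_ hcomp hi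
    rw [hK]
    ext x
    constructor
    · rintro ⟨h1, -⟩ b
      exact abs_le.1 (h1 b)
    · intro h1
      refine ⟨fun b => abs_le.2 (h1 b), ?_⟩
      simp [hc0, hn]
  have hlne : l ≠ 0 := by
    intro h
    apply hc0
    funext b
    have h1 : l (EuclideanSpace.single b (1:ℝ)) = 0 := by rw [h]; rfl
    rw [hl, Finset.sum_eq_single b] at h1
    · simpa using h1
    · intro k _ hk
      simp [hk]
    · intro h2
      exact absurd (mem_univ _) h2
  obtain ⟨ξ₀, h₀⟩ := id hi
  have hbd : ∀ x ∈ K, (∀ b, |x b| ≤ 1) ∧ |l x - n| ≤ 1 := by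
    intro x hx
    rw [hKD] at hx
    exact (one_K c n hc x).1 hx
  -- strict inequalities at the interior point
  have str : ∀ (f : E d →L[ℝ] ℝ) (r : ℝ), f ≠ 0 → (∀ x ∈ K, |f x - r| ≤ 1) → |f ξ₀ - r| < 1 := by
    intro f r hf hfK
    rw [abs_lt]
    constructor
    · obtain ⟨x, hx, h⟩ := exists_larger h₀ (-f) (neg_ne_zero.2 hf)
      have := abs_le.1 (hfK x hx)
      simp only [neg_apply] at h
      linarith
    · obtain ⟨x, hx, h⟩ := exists_larger h₀ f hf
      have := abs_le.1 (hfK x hx)
      linarith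
  have s1 : ∀ b, |ξ₀ b| < 1 := by
    intro b
    have := str (co b) 0 (by
      intro h
      have := congrArg (fun g : E d →L[ℝ] ℝ => g (EuclideanSpace.single b (1:ℝ))) h
      simp [co_apply] at this) (fun x hx => by
        rw [sub_zero]
        exact (hbd x hx).1 b)
    rwa [sub_zero] at this
  obtain ⟨ξ, hξ, hξ1⟩ := ht
  rw [← hl] at hξ1
  have s2 : |l ξ₀ - n| < 1 := str l n hlne fun x hx => (hbd x hx).2
  have hYb : ∀ (σ : Fin d → Bool) b, D.Y (sg σ) b = sg σ b := by
    intro σ b
    have : co b (D.Y (sg σ)) = sg σ b + 0 := D.phi_Y (sg σ) b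
    rw [add_zero] at this
    exact this
  have hlY : ∀ σ : Fin d → Bool, l (D.Y (sg σ)) = ∑ b, c b * sg σ b := by
    intro σ
    rw [hl]
    exact Finset.sum_congr rfl fun b _ => by rw [hYb]
  -- the directions
  have hdir : ∀ σ : Fin d → Bool, ∃ v : E d, (∀ b, sg σ b * v b < 0) ∧
      (1 ≤ l (D.Y (sg σ)) - n → l v < 0) ∧ (l (D.Y (sg σ)) - n < 1 → 0 < l v) := by
    intro σ
    set Y := D.Y (sg σ) with hY
    have b0 : ∀ b, sg σ b * (ξ₀ b - Y b) < 0 := by
      intro b
      have h1 := abs_lt.1 (s1 b)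
      rw [hYb]
      rcases sg_or σ b with h | h <;> rw [h] <;> linarith
    have s2' := abs_lt.1 s2
    by_cases hq : 1 ≤ l Y - n
    · refine ⟨ξ₀ - Y, fun b => b0 b, fun _ => ?_, fun h => absurd hq (by linarith)⟩
      rw [map_sub]
      linarith
    · push Not at hq
      set q := l Y - n with hqdef
      by_cases hq3 : l ξ₀ - l Y ≥ 0
      · refine ⟨(ξ - Y) + (ξ₀ - Y), fun b => ?_, fun h => absurd hq (by linarith), fun _ => ?_⟩
        · have e1 : ((ξ - Y) + (ξ₀ - Y)) b = (ξ b - Y b) + (ξ₀ b - Y b) := by simp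
          rw [e1, mul_add]
          have h1 : sg σ b * (ξ b - Y b) ≤ 0 := by
            have h2 := abs_le.1 ((hbd ξ hξ).1 b)
            rw [hYb]
            rcases sg_or σ b with h | h <;> rw [h] <;> linarith
          have h3 := b0 b
          linarith
        · rw [map_add, map_sub, map_sub]
          linarith
      · push Not at hq3
        set δ := l Y - l ξ₀ with hδ
        have hδ0 : 0 < δ := by linarith
        set ε : ℝ := (1 - q) / (2 * δ) with hε
        have hε0 : 0 < ε := by
          rw [hε]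
          have : 0 < 1 - q := by linarith
          positivity
        refine ⟨(ξ - Y) + ε • (ξ₀ - Y), fun b => ?_, fun h => absurd hq (by linarith), fun _ => ?_⟩
        · have e1 : ((ξ - Y) + ε • (ξ₀ - Y)) b = (ξ b - Y b) + ε * (ξ₀ b - Y b) := by simp
          rw [e1, mul_add]
          have h1 : sg σ b * (ξ b - Y b) ≤ 0 := by
            have h2 := abs_le.1 ((hbd ξ hξ).1 b)
            rw [hYb]
            rcases sg_or σ b with h | h <;> rw [h] <;> linarith
          have h3 := b0 b
          have h4 : sg σ b * (ε * (ξ₀ b - Y b)) = ε * (sg σ b * (ξ₀ b - Y b)) := by ring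
          rw [h4]
          have := mul_neg_of_pos_of_neg hε0 h3
          linarith
        · rw [map_add, map_smul, map_sub, map_sub, smul_eq_mul]
          have h6 : l ξ - l Y = 1 - q := by rw [hqdef]; linarith
          have h7 : ε * (l ξ₀ - l Y) = - ((1 - q) / 2) := by
            rw [hε, show l ξ₀ - l Y = -δ by rw [hδ]; ring]
            field_simp
          rw [h6, h7]
          linarith
  choose V hV using hdir
  let S := univ.filter fun σ : Fin d → Bool => -1 ≤ ∑ b, c b * sg σ b - n
  let U : Finset (E d) := S.image V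
  have hext : ∀ x ∈ Set.extremePoints ℝ K, ∃ u ∈ U, ∃ t : ℝ, 0 < t ∧ x + t • u ∈ interior K := by
    intro x hx
    have hxK : x ∈ K := hx.1
    rw [hKD] at hx
    have hcard := D.extreme_card hx
    have hxD : x ∈ D.K := hx.1
    set t : Fin d → ℝ := fun b => x b with htdef
    have htle : ∀ b, |t b| ≤ 1 := (hbd x hxK).1
    have hF : (univ.filter fun b => |t b| < 1).card ≤ 2 := by
      have h3 : (univ.filter fun b => |D.φ b x - D.m b| < 1) = univ.filter fun b => |t b| < 1 := by
        refine Finset.filter_congr fun b _ => ?_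
        show |co b x - 0| < 1 ↔ |x b| < 1
        rw [sub_zero]
        rfl
      rw [← h3]
      refine hcard.trans ?_
      calc _ ≤ (univ : Finset (Fin 2)).card := Finset.card_filter_le _ _
        _ = 2 := by simp
    have hsum : ∀ y : Fin d → ℝ, ∑ b, c b * y b - n = (l x - n) + ∑ b, c b * (y b - t b) := by
      intro y
      have h1 : l x = ∑ b, c b * t b := hl x
      rw [h1]
      have h2 : ∑ b, c b * (y b - t b) = ∑ b, c b * y b - ∑ b, c b * t b := by
        rw [← Finset.sum_sub_distrib]
        exact Finset.sum_congr rfl fun b _ => by ring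
      rw [h2]
      ring
    -- conclusion for a given vertex
    have fin : ∀ y : Fin d → ℝ, (∀ b, y b = 1 ∨ y b = -1) → (∀ b, |t b| = 1 → y b = t b) →
        -1 ≤ ∑ b, c b * y b - n →
        (∀ σ, sg σ = y → |l x - n| = 1 → (l x - n) * l (V σ) < 0) →
        ∃ u ∈ U, ∃ t : ℝ, 0 < t ∧ x + t • u ∈ interior K := by
      intro y hy hyt hy1 h2
      obtain ⟨σ, rfl⟩ := exists_sg y hy
      refine ⟨V σ, Finset.mem_image_of_mem _ (Finset.mem_filter.2 ⟨mem_univ _, hy1⟩), ?_⟩
      rw [hKD]
      refine D.illum hxD ?_ ?_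
      · intro b hb
        have hb' : |co b x - 0| = 1 := hb
        rw [sub_zero] at hb'
        have h3 := (hV σ).1 b
        rw [hyt b hb'] at h3
        show (co b x - 0) * co b (V σ) < 0
        rw [sub_zero]
        exact h3
      · intro j
        fin_cases j
        · exact h2 σ rfl
        · intro h
          exfalso
          have h4 : |(0 : E d →L[ℝ] ℝ) x - 0| = 1 := h
          simp at h4
    have hneg : ∀ y : Fin d → ℝ,
        ∑ b, (-c b) * (y b - t b) = - ∑ b, c b * (y b - t b) := by
      intro y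
      rw [← Finset.sum_neg_distrib]
      exact Finset.sum_congr rfl fun b _ => by ring
    have h1x := abs_le.1 (hbd x hxK).2
    obtain ⟨y, hy, hyt, a1, a2⟩ := round t c (fun b => -c b) htle
      (by intro b; rw [abs_neg]; exact hc b) hF
    rw [hneg] at a2
    refine fin y hy hyt (by rw [hsum]; linarith) ?_
    rintro σ rfl ha
    rcases (abs_eq (by norm_num : (0:ℝ) ≤ 1)).1 ha with h | h
    · have h2 := (hV σ).2.1 (by rw [hlY, hsum, h]; linarith)
      rw [h]
      linarith
    · have h2 := (hV σ).2.2 (by rw [hlY, hsum, h]; linarith)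
      rw [h]
      linarith
  have hUne : U.Nonempty := by
    obtain ⟨x, hx⟩ := hcomp.extremePoints_nonempty ⟨ξ₀, interior_subset h₀⟩
    obtain ⟨u, hu, -⟩ := hext x hx
    exact ⟨u, hu⟩
  obtain ⟨T, hT, hcov⟩ := cover_of_illum hconv hcomp U hUne fun x hx => by
    obtain ⟨v, hv, hdom⟩ := extreme_dom hconv hcomp hi hx
    obtain ⟨u, hu, hut⟩ := hext v hv
    exact ⟨u, hu, hdom u hut⟩
  refine ⟨T, ?_, hcov⟩
  have : T.card ≤ U.card := by exact_mod_cast hT
  exact this.trans Finset.card_image_le

end Pool.Agent.N630.Slab
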