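import Mathlib

set_option autoImplicit false

/-!
# A basis of maximal determinant
-/

open Finset

namespace Pool.Agent.N630.Slab

theorem exists_base {d : ℕ} {ι : Type*} [Finite ι] (A : ι → Fin d → ℝ)
    (hA : ∀ x : Fin d → ℝ, (∀ i, A i ⬝ᵥ x = 0) → x = 0) :
    ∃ B : Fin d → ι, ∃ C : ι → Fin d → ℝ, (Matrix.of fun r => A (B r)).det ≠ 0 ∧
      (∀ i b, |C i b| ≤ 1) ∧ ∀ i, A i = ∑ b, C i b • A (B b) := by
  classical
  have hspan : Submodule.span ℝ (Set.range A) = ⊤ := by
    by_contra hne
    obtain ⟨f, hf0, hf⟩ := Submodule.exists_dual_map_eq_bot_of_lt_top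
      (lt_top_iff_ne_top.2 hne) inferInstance
    apply hf0
    have hx : (fun c => f (Pi.single c 1)) = 0 := by
      apply hA
      intro i
      have h1 : f (A i) = 0 := by
        have : f (A i) ∈ Submodule.map f (Submodule.span ℝ (Set.range A)) :=
          Submodule.mem_map_of_mem (Submodule.subset_span ⟨i, rfl⟩)
        rw [hf] at this
        simpa using this
      have h2 : A i = ∑ c, A i c • (Pi.single c (1:ℝ) : Fin d → ℝ) := by
        conv_lhs => rw [← Finset.univ_sum_single (A i)]
        refine Finset.sum_congr rfl fun c _ => ?_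
        rw [← Pi.single_smul, smul_eq_mul, mul_one]
      rw [h2, map_sum] at h1
      simp only [map_smul, smul_eq_mul] at h1
      exact h1
    refine LinearMap.pi_ext' fun c => ?_
    ext
    simpa using congrFun hx c
  have hfin : Module.finrank ℝ (Submodule.span ℝ (Set.range A)) = d := by
    rw [hspan, finrank_top, Module.finrank_fin_fun]
  obtain ⟨f, hf1, -, hf3⟩ := Submodule.exists_fun_fin_finrank_span_eq ℝ (Set.range A)
  choose B' hB' using hf1
  let B₀ : Fin d → ι := fun r => B' (Fin.cast hfin.symm r)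
  have hB₀ : (Matrix.of fun r => A (B₀ r)).det ≠ 0 := by
    have hli : LinearIndependent ℝ (fun r => A (B₀ r)) := by
      have h1 : (fun r => A (B₀ r)) = f ∘ (Fin.cast hfin.symm) := by
        funext r
        exact hB' _
      rw [h1]
      exact hf3.comp _ (Fin.cast_injective _)
    have h2 : IsUnit (Matrix.of fun r => A (B₀ r)) :=
      Matrix.linearIndependent_rows_iff_isUnit.1 hli
    exact ((Matrix.isUnit_iff_isUnit_det _).1 h2).ne_zero
  have : Nonempty (Fin d → ι) := ⟨B₀⟩
  obtain ⟨B, hB⟩ := Finite.exists_max (fun B : Fin d → ι => |(Matrix.of fun r => A (B r)).det|)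
  set M : Matrix (Fin d) (Fin d) ℝ := Matrix.of fun r => A (B r) with hM
  have hdet : 0 < |M.det| := lt_of_lt_of_le (abs_pos.2 hB₀) (hB B₀)
  have hdet0 : M.det ≠ 0 := abs_pos.1 hdet
  have hunit : IsUnit M.det := isUnit_iff_ne_zero.2 hdet0
  have hC : ∀ i, A i = ∑ b, (Matrix.vecMul (A i) M⁻¹) b • A (B b) := by
    intro i
    have h1 : Matrix.vecMul (Matrix.vecMul (A i) M⁻¹) M = A i := by
      rw [Matrix.vecMul_vecMul, Matrix.nonsing_inv_mul _ hunit, Matrix.vecMul_one]
    conv_lhs => rw [← h1, Matrix.vecMul_eq_sum]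
    rfl
  refine ⟨B, fun i => Matrix.vecMul (A i) M⁻¹, hdet0, ?_, hC⟩
  intro i b
  have h1 : (M.updateRow b (A i)).det = (Matrix.vecMul (A i) M⁻¹) b • M.det := by
    rw [← Matrix.det_updateRow_sum M b (Matrix.vecMul (A i) M⁻¹)]
    congr 2
    exact hC i
  have h2 : M.updateRow b (A i) = Matrix.of fun r => A (Function.update B b i r) := by
    ext r c
    rw [Matrix.updateRow_apply, Matrix.of_apply, Function.update_apply]
    split_ifs with h
    · rfl
    · rfl
  have h3 := hB (Function.update B b i)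
  rw [← h2, h1, smul_eq_mul, abs_mul] at h3
  exact le_of_mul_le_mul_right (by linarith) hdet

end Pool.Agent.N630.Slab
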