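import Mathlib

set_option autoImplicit false

/-!
# Rounding in the cube with respect to two functionals
-/

open Finset

namespace Pool.Agent.N630.Slab

/-- rounding of one coordinate -/
theorem round_one (t f g : ℝ) (ht : |t| < 1) (hg : |g| ≤ 1) :
    ∃ y : ℝ, (y = 1 ∨ y = -1) ∧ 0 ≤ f * (y - t) ∧ -2 < g * (y - t) := by
  rw [abs_lt] at ht
  rw [abs_le] at hg
  rcases le_total 0 f with hf | hf
  · refine ⟨1, Or.inl rfl, mul_nonneg hf (by linarith), by nlinarith⟩
  · refine ⟨-1, Or.inr rfl, by nlinarith, by nlinarith⟩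

/-- rounding of two coordinates, if the coefficients of the first functional are nonnegative -/
theorem round_two_aux (s t a b c e : ℝ) (hs : |s| < 1) (ht : |t| < 1) (ha : 0 ≤ a) (hb : 0 ≤ b)
    (hc : |c| ≤ 1) (he : |e| ≤ 1) :
    ∃ y z : ℝ, (y = 1 ∨ y = -1) ∧ (z = 1 ∨ z = -1) ∧ 0 ≤ a * (y - s) + b * (z - t) ∧
      -2 < c * (y - s) + e * (z - t) := by
  rw [abs_lt] at hs ht
  rw [abs_le] at hc he
  by_cases h1 : -2 < c * (1 - s) + e * (1 - t)
  · exact ⟨1, 1, Or.inl rfl, Or.inl rfl,
      add_nonneg (mul_nonneg ha (by linarith)) (mul_nonneg hb (by linarith)), h1⟩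
  · push Not at h1
    have hc1 : c * (1 - s) > -2 := by nlinarith
    have he1 : e * (1 - t) > -2 := by nlinarith
    have hc0 : c < 0 := by
      by_contra hh
      push Not at hh
      have := mul_nonneg hh (by linarith : (0:ℝ) ≤ 1 - s)
      linarith
    have he0 : e < 0 := by
      by_contra hh
      push Not at hh
      have := mul_nonneg hh (by linarith : (0:ℝ) ≤ 1 - t)
      linarith
    have hsum : s + t ≤ 0 := by nlinarith
    by_cases h2 : 0 ≤ a * (1 - s) + b * (-1 - t)
    · refine ⟨1, -1, Or.inl rfl, Or.inr rfl, h2, ?_⟩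
      have := mul_pos_of_neg_of_neg he0 (by linarith : -1 - t < 0)
      linarith
    · by_cases h3 : 0 ≤ a * (-1 - s) + b * (1 - t)
      · refine ⟨-1, 1, Or.inr rfl, Or.inl rfl, h3, ?_⟩
        have := mul_pos_of_neg_of_neg hc0 (by linarith : -1 - s < 0)
        linarith
      · exfalso
        push Not at h2 h3
        -- a (1 - s) < b (1 + t), b (1 - t) < a (1 + s)
        have p1 : a * (1 - s) < b * (1 + t) := by linarith
        have p2 : b * (1 - t) < a * (1 + s) := by linarith
        nlinarith
  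
/-- rounding of two coordinates -/
theorem round_two (s t a b c e : ℝ) (hs : |s| < 1) (ht : |t| < 1)
    (hc : |c| ≤ 1) (he : |e| ≤ 1) :
    ∃ y z : ℝ, (y = 1 ∨ y = -1) ∧ (z = 1 ∨ z = -1) ∧ 0 ≤ a * (y - s) + b * (z - t) ∧
      -2 < c * (y - s) + e * (z - t) := by
  rcases le_total 0 a with ha | ha <;> rcases le_total 0 b with hb | hb
  · exact round_two_aux s t a b c e hs ht ha hb hc he
  · obtain ⟨y, z, hy, hz, h1, h2⟩ := round_two_aux s (-t) a (-b) c (-e) hs (by rwa [abs_neg]) ha
      (by linarith) hc (by rwa [abs_neg])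
    refine ⟨y, -z, hy, by rcases hz with h | h <;> rw [h] <;> norm_num, by linarith, by linarith⟩
  · obtain ⟨y, z, hy, hz, h1, h2⟩ := round_two_aux (-s) t (-a) b (-c) e (by rwa [abs_neg]) ht
      (by linarith) hb (by rwa [abs_neg]) he
    refine ⟨-y, z, by rcases hy with h | h <;> rw [h] <;> norm_num, hz, by linarith, by linarith⟩
  · obtain ⟨y, z, hy, hz, h1, h2⟩ := round_two_aux (-s) (-t) (-a) (-b) (-c) (-e)
      (by rwa [abs_neg]) (by rwa [abs_neg]) (by linarith) (by linarith) (by rwa [abs_neg])
      (by rwa [abs_neg])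
    refine ⟨-y, -z, by rcases hy with h | h <;> rw [h] <;> norm_num,
      by rcases hz with h | h <;> rw [h] <;> norm_num, by linarith, by linarith⟩

/-- rounding of a point of the cube with at most two free coordinates -/
theorem round {d : ℕ} (t f g : Fin d → ℝ) (ht : ∀ b, |t b| ≤ 1) (hg : ∀ b, |g b| ≤ 1)
    (hF : (univ.filter fun b => |t b| < 1).card ≤ 2) :
    ∃ y : Fin d → ℝ, (∀ b, y b = 1 ∨ y b = -1) ∧ (∀ b, |t b| = 1 → y b = t b) ∧
      0 ≤ ∑ b, f b * (y b - t b) ∧ -2 < ∑ b, g b * (y b - t b) := by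
  classical
  set F := univ.filter fun b => |t b| < 1 with hFdef
  have hmem : ∀ b, b ∈ F ↔ |t b| < 1 := by intro b; simp [hFdef]
  have hnot : ∀ b, b ∉ F → t b = 1 ∨ t b = -1 := by
    intro b hb
    rw [hmem] at hb
    have h1 : |t b| = 1 := le_antisymm (ht b) (not_lt.1 hb)
    rcases abs_eq (by norm_num : (0:ℝ) ≤ 1) |>.1 h1 with h | h
    · exact Or.inl h
    · exact Or.inr h
  have hsum : ∀ (h y : Fin d → ℝ), (∀ b, b ∉ F → y b = t b) →
      ∑ b, h b * (y b - t b) = ∑ b ∈ F, h b * (y b - t b) := by
    intro h y hy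
    symm
    apply Finset.sum_subset (subset_univ _)
    intro b _ hb
    rw [hy b hb, sub_self, mul_zero]
  have hone : ∀ b, |t b| = 1 → b ∉ F := by
    intro b hb hbF
    rw [hmem, hb] at hbF
    exact lt_irrefl _ hbF
  rcases Nat.lt_or_ge F.card 1 with h0 | h0
  · have hF0 : F = ∅ := Finset.card_eq_zero.1 (by omega)
    refine ⟨t, fun b => hnot b (by rw [hF0]; simp), fun _ _ => rfl, by simp, by simp⟩
  rcases Nat.lt_or_ge F.card 2 with h1 | h1
  · obtain ⟨a, ha⟩ := Finset.card_eq_one.1 (by omega : F.card = 1)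
    obtain ⟨y, hy, h2, h3⟩ := round_one (t a) (f a) (g a) ((hmem a).1 (by rw [ha]; simp)) (hg a)
    have hoff : ∀ b, b ∉ F → Function.update t a y b = t b := by
      intro b hb
      rw [Function.update_of_ne]
      rintro rfl
      exact hb (by rw [ha]; simp)
    refine ⟨Function.update t a y, ?_, fun b hb => hoff b (hone b hb), ?_, ?_⟩
    · intro b
      by_cases hb : b ∈ F
      · rw [ha, mem_singleton] at hb
        subst hb
        simpa using hy
      · rw [hoff b hb]; exact hnot b hb
    · rw [hsum f _ hoff, ha, sum_singleton, Function.update_self]; exact h2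
    · rw [hsum g _ hoff, ha, sum_singleton, Function.update_self]; exact h3
  · obtain ⟨a, b, hab, hF2⟩ := Finset.card_eq_two.1 (by omega : F.card = 2)
    have haF : a ∈ F := by rw [hF2]; simp
    have hbF : b ∈ F := by rw [hF2]; simp
    obtain ⟨y, z, hy, hz, h2, h3⟩ := round_two (t a) (t b) (f a) (f b) (g a) (g b)
      ((hmem a).1 haF) ((hmem b).1 hbF) (hg a) (hg b)
    have hoff : ∀ c, c ∉ F → Function.update (Function.update t a y) b z c = t c := by
      intro c hc
      have hca : c ≠ a := by rintro rfl; exact hc haF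
      have hcb : c ≠ b := by rintro rfl; exact hc hbF
      rw [Function.update_of_ne hcb, Function.update_of_ne hca]
    have ea : Function.update (Function.update t a y) b z a = y := by
      rw [Function.update_of_ne hab, Function.update_self]
    have eb : Function.update (Function.update t a y) b z b = z := by
      rw [Function.update_self]
    refine ⟨Function.update (Function.update t a y) b z, ?_, fun c hc => hoff c (hone c hc), ?_, ?_⟩
    · intro c
      by_cases hc : c ∈ F
      · rw [hF2, mem_insert, mem_singleton] at hc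
        rcases hc with rfl | rfl
        · rw [ea]; exact hy
        · rw [eb]; exact hz
      · rw [hoff c hc]; exact hnot c hc
    · rw [hsum f _ hoff, hF2, sum_pair hab, ea, eb]; exact h2
    · rw [hsum g _ hoff, hF2, sum_pair hab, ea, eb]; exact h3

end Pool.Agent.N630.Slab
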