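import Pool.Agent.TH84.HC.Cover
import Pool.Agent.N630.Slab.Round

set_option autoImplicit false

/-!
# Illumination of the intersection of a parallelotope and two slabs
-/

open Finset Filter Topology

namespace Pool.Agent.N630.Slab

open Pool.Agent.TH84.HC
open Pool.Agent.PZ871 (E)

variable {d : ℕ}

/-- the data: a parallelotope and two slabs, in normalized form -/
structure Data (d : ℕ) where
  φ : Fin d → (E d →L[ℝ] ℝ)
  m : Fin d → ℝ
  ψ : Fin 2 → (E d →L[ℝ] ℝ)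
  n : Fin 2 → ℝ
  C : Fin 2 → Fin d → ℝ
  e : Fin d → E d
  dual : ∀ b c, φ b (e c) = if b = c then 1 else 0
  le : ∀ j b, |C j b| ≤ 1
  sum : ∀ j x, ψ j x = ∑ b, C j b * φ b x

namespace Data

variable (D : Data d)

/-- the body -/
def K : Set (E d) := {x | (∀ b, |D.φ b x - D.m b| ≤ 1) ∧ ∀ j, |D.ψ j x - D.n j| ≤ 1}

/-- the points of the parallelotope with given coordinates -/
noncomputable def Y (y : Fin d → ℝ) : E d := ∑ b, (y b + D.m b) • D.e b

theorem phi_Y (y : Fin d → ℝ) (b : Fin d) : D.φ b (D.Y y) = y b + D.m b := by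
  unfold Y
  rw [map_sum]
  simp only [map_smul, smul_eq_mul, D.dual, mul_ite, mul_one, mul_zero]
  rw [Finset.sum_ite_eq]
  simp

theorem psi_Y (y : Fin d → ℝ) (x : E d) (j : Fin 2) :
    D.ψ j (D.Y y) = D.ψ j x + ∑ b, D.C j b * (y b - (D.φ b x - D.m b)) := by
  rw [D.sum, D.sum, ← Finset.sum_add_distrib]
  refine Finset.sum_congr rfl fun b _ => ?_
  rw [D.phi_Y]
  ring

theorem convex : Convex ℝ D.K := by
  intro x hx z hz a b ha hb hab
  have key : ∀ (l : E d →L[ℝ] ℝ) (r : ℝ), |l x - r| ≤ 1 → |l z - r| ≤ 1 →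
      |l (a • x + b • z) - r| ≤ 1 := by
    intro l r h1 h2
    rw [map_add, map_smul, map_smul, smul_eq_mul, smul_eq_mul]
    rw [abs_le] at *
    have hr : r = a * r + b * r := by rw [← add_mul, hab, one_mul]
    constructor <;> nlinarith
  exact ⟨fun c => key _ _ (hx.1 c) (hz.1 c), fun j => key _ _ (hx.2 j) (hz.2 j)⟩

theorem eventually_lt (p w : ℝ) (hp : |p| ≤ 1) (h : |p| = 1 → p * w < 0) :
    ∀ᶠ τ in 𝓝[>] (0:ℝ), |p + τ * w| < 1 := by
  rcases lt_or_eq_of_le hp with h1 | h1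
  · have hc : ContinuousAt (fun τ : ℝ => |p + τ * w|) 0 := by fun_prop
    have h2 : |p + (0:ℝ) * w| < 1 := by simpa using h1
    exact (hc.eventually (gt_mem_nhds h2)).filter_mono nhdsWithin_le_nhds
  · have hw := h h1
    have hw0 : 0 < |w| + 1 := by positivity
    have hev : ∀ᶠ τ in 𝓝[>] (0:ℝ), τ < 1 / (|w| + 1) :=
      (gt_mem_nhds (by positivity : (0:ℝ) < 1 / (|w| + 1))).filter_mono nhdsWithin_le_nhds
    filter_upwards [hev, self_mem_nhdsWithin] with τ h3 h4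
    have h4' : (0:ℝ) < τ := h4
    have h5 : τ * (|w| + 1) < 1 := by
      rwa [lt_div_iff₀ hw0] at h3
    have h6 : |τ * w| < 1 := by
      rw [abs_mul, abs_of_pos h4']
      nlinarith
    rw [abs_lt] at h6 ⊢
    rcases (abs_eq (by norm_num : (0:ℝ) ≤ 1)).1 h1 with h | h
    · subst h
      have : τ * w < 0 := by nlinarith
      constructor <;> linarith
    · subst h
      have : 0 < τ * w := by nlinarith
      constructor <;> linarith

/-- illumination of a point -/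
theorem illum {x v : E d} (hx : x ∈ D.K)
    (h1 : ∀ b, |D.φ b x - D.m b| = 1 → (D.φ b x - D.m b) * D.φ b v < 0)
    (h2 : ∀ j, |D.ψ j x - D.n j| = 1 → (D.ψ j x - D.n j) * D.ψ j v < 0) :
    ∃ t : ℝ, 0 < t ∧ x + t • v ∈ interior D.K := by
  have hO : IsOpen {z : E d | (∀ b, |D.φ b z - D.m b| < 1) ∧ ∀ j, |D.ψ j z - D.n j| < 1} := by
    have e : {z : E d | (∀ b, |D.φ b z - D.m b| < 1) ∧ ∀ j, |D.ψ j z - D.n j| < 1} =
        (⋂ b, {z | |D.φ b z - D.m b| < 1}) ∩ ⋂ j, {z | |D.ψ j z - D.n j| < 1} := by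
      ext z
      simp
    rw [e]
    refine (isOpen_iInter_of_finite fun b => ?_).inter (isOpen_iInter_of_finite fun j => ?_)
    · exact isOpen_lt (by fun_prop) continuous_const
    · exact isOpen_lt (by fun_prop) continuous_const
  have hsub : {z : E d | (∀ b, |D.φ b z - D.m b| < 1) ∧ ∀ j, |D.ψ j z - D.n j| < 1} ⊆
      interior D.K := interior_maximal (fun z hz => ⟨fun b => (hz.1 b).le, fun j => (hz.2 j).le⟩) hO
  have e1 : ∀ᶠ τ in 𝓝[>] (0:ℝ), ∀ b, |(D.φ b x - D.m b) + τ * D.φ b v| < 1 :=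
    Filter.eventually_all.2 fun b => eventually_lt _ _ (hx.1 b) (h1 b)
  have e2 : ∀ᶠ τ in 𝓝[>] (0:ℝ), ∀ j, |(D.ψ j x - D.n j) + τ * D.ψ j v| < 1 :=
    Filter.eventually_all.2 fun j => eventually_lt _ _ (hx.2 j) (h2 j)
  obtain ⟨τ, ⟨h3, h4⟩, h5⟩ := ((e1.and e2).and self_mem_nhdsWithin).exists
  refine ⟨τ, h5, hsub ⟨fun b => ?_, fun j => ?_⟩⟩
  · have := h3 b
    rw [map_add, map_smul, smul_eq_mul]
    rwa [show D.φ b x + τ * D.φ b v - D.m b = D.φ b x - D.m b + τ * D.φ b v by ring]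
  · have := h4 j
    rw [map_add, map_smul, smul_eq_mul]
    rwa [show D.ψ j x + τ * D.ψ j v - D.n j = D.ψ j x - D.n j + τ * D.ψ j v by ring]

/-- at an extreme point, the number of free coordinates is at most the number of active slabs -/
theorem extreme_card {x : E d} (hx : x ∈ Set.extremePoints ℝ D.K) :
    (univ.filter fun b => |D.φ b x - D.m b| < 1).card ≤
      (univ.filter fun j => |D.ψ j x - D.n j| = 1).card := by
  classical
  by_contra hlt
  push Not at hlt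
  set F := univ.filter fun b => |D.φ b x - D.m b| < 1 with hF
  set A := univ.filter fun j => |D.ψ j x - D.n j| = 1 with hA
  rw [mem_extremePoints] at hx
  obtain ⟨hxK, hext⟩ := hx
  let L : (F → ℝ) →ₗ[ℝ] (A → ℝ) :=
    { toFun := fun u j => ∑ b : F, D.C j b * u b
      map_add' := by
        intro u v
        funext j
        simp only [Pi.add_apply, mul_add, Finset.sum_add_distrib]
      map_smul' := by
        intro r u
        funext j
        simp only [Pi.smul_apply, smul_eq_mul, RingHom.id_apply, Finset.mul_sum]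
        refine Finset.sum_congr rfl fun b _ => by ring }
  have hker : LinearMap.ker L ≠ ⊥ := by
    apply LinearMap.ker_ne_bot_of_finrank_lt
    rw [Module.finrank_pi, Module.finrank_pi, Fintype.card_coe, Fintype.card_coe]
    exact hlt
  obtain ⟨u, hu, hu0⟩ := (Submodule.ne_bot_iff _).1 hker
  rw [LinearMap.mem_ker] at hu
  let z : E d := ∑ b : F, u b • D.e b
  have hφz : ∀ c (hc : c ∈ F), D.φ c z = u ⟨c, hc⟩ := by
    intro c hc
    show D.φ c (∑ b : F, u b • D.e b) = _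
    rw [map_sum]
    simp only [map_smul, smul_eq_mul, D.dual]
    rw [Finset.sum_eq_single (⟨c, hc⟩ : F)]
    · simp
    · intro b _ hb
      rw [if_neg, mul_zero]
      rintro rfl
      exact hb rfl
    · intro h
      exact absurd (Finset.mem_univ _) h
  have hφz0 : ∀ c, c ∉ F → D.φ c z = 0 := by
    intro c hc
    show D.φ c (∑ b : F, u b • D.e b) = _
    rw [map_sum]
    refine Finset.sum_eq_zero fun b _ => ?_
    rw [map_smul, smul_eq_mul, D.dual, if_neg, mul_zero]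
    rintro rfl
    exact hc b.2
  have hψz : ∀ j, j ∈ A → D.ψ j z = 0 := by
    intro j hj
    have h1 := congrFun hu ⟨j, hj⟩
    have h2 : ∑ b : F, D.C j b * u b = 0 := h1
    rw [D.sum]
    rw [← Finset.sum_subset (Finset.subset_univ F) (fun c _ hc => by rw [hφz0 c hc, mul_zero])]
    rw [← Finset.sum_coe_sort F]
    rw [← h2]
    refine Finset.sum_congr rfl fun b _ => ?_
    rw [hφz b b.2]
  have hz : z ≠ 0 := by
    intro h0
    apply hu0
    funext b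
    have := hφz b b.2
    rw [h0, map_zero] at this
    exact this.symm
  have ev : ∀ p w : ℝ, |p| ≤ 1 → (|p| = 1 → w = 0) →
      ∀ᶠ τ in 𝓝[>] (0:ℝ), |p + τ * w| ≤ 1 ∧ |p - τ * w| ≤ 1 := by
    intro p w hp h
    rcases lt_or_eq_of_le hp with h1 | h1
    · have hc : ContinuousAt (fun τ : ℝ => |p + τ * w|) 0 := by fun_prop
      have hc2 : ContinuousAt (fun τ : ℝ => |p - τ * w|) 0 := by fun_prop
      have h2 : |p + (0:ℝ) * w| < 1 := by simpa using h1
      have h3 : |p - (0:ℝ) * w| < 1 := by simpa using h1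
      filter_upwards [(hc.eventually (gt_mem_nhds h2)).filter_mono nhdsWithin_le_nhds,
        (hc2.eventually (gt_mem_nhds h3)).filter_mono nhdsWithin_le_nhds] with τ h4 h5
      exact ⟨h4.le, h5.le⟩
    · have := h h1
      subst this
      simp [h1]
  have e1 : ∀ᶠ τ in 𝓝[>] (0:ℝ), ∀ b, |(D.φ b x - D.m b) + τ * D.φ b z| ≤ 1 ∧
      |(D.φ b x - D.m b) - τ * D.φ b z| ≤ 1 := by
    refine Filter.eventually_all.2 fun b => ev _ _ (hxK.1 b) fun h => hφz0 b ?_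
    rw [hF]
    simp [h]
  have e2 : ∀ᶠ τ in 𝓝[>] (0:ℝ), ∀ j, |(D.ψ j x - D.n j) + τ * D.ψ j z| ≤ 1 ∧
      |(D.ψ j x - D.n j) - τ * D.ψ j z| ≤ 1 := by
    refine Filter.eventually_all.2 fun j => ev _ _ (hxK.2 j) fun h => hψz j ?_
    rw [hA]
    simp [h]
  obtain ⟨τ, ⟨h3, h4⟩, h5⟩ := ((e1.and e2).and self_mem_nhdsWithin).exists
  have h5' : (0:ℝ) < τ := h5
  have hp : x + τ • z ∈ D.K := by
    refine ⟨fun b => ?_, fun j => ?_⟩
    · rw [map_add, map_smul, smul_eq_mul,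
        show D.φ b x + τ * D.φ b z - D.m b = D.φ b x - D.m b + τ * D.φ b z by ring]
      exact (h3 b).1
    · rw [map_add, map_smul, smul_eq_mul,
        show D.ψ j x + τ * D.ψ j z - D.n j = D.ψ j x - D.n j + τ * D.ψ j z by ring]
      exact (h4 j).1
  have hm : x - τ • z ∈ D.K := by
    refine ⟨fun b => ?_, fun j => ?_⟩
    · rw [map_sub, map_smul, smul_eq_mul,
        show D.φ b x - τ * D.φ b z - D.m b = D.φ b x - D.m b - τ * D.φ b z by ring]
      exact (h3 b).2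
    · rw [map_sub, map_smul, smul_eq_mul,
        show D.ψ j x - τ * D.ψ j z - D.n j = D.ψ j x - D.n j - τ * D.ψ j z by ring]
      exact (h4 j).2
  have hseg : x ∈ openSegment ℝ (x + τ • z) (x - τ • z) := by
    refine ⟨1/2, 1/2, by norm_num, by norm_num, by norm_num, ?_⟩
    rw [← smul_add]
    rw [show x + τ • z + (x - τ • z) = (2:ℝ) • x by rw [two_smul]; abel, smul_smul]
    norm_num
  have := (hext _ hp _ hm hseg).1
  have h0 : τ • z = 0 := by
    have := congrArg (fun w => w - x) this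
    simpa using this
  rcases smul_eq_zero.1 h0 with h | h
  · exact h5'.ne' h
  · exact hz h

/-- a direction with prescribed signs -/
theorem dir (y : Fin d → ℝ) (hy : ∀ b, y b = 1 ∨ y b = -1)
    (ξ₀ : E d) (h₀ : ∀ b, |D.φ b ξ₀ - D.m b| < 1) (h₀' : ∀ j, |D.ψ j ξ₀ - D.n j| < 1)
    (tight : ∀ j, ∀ σ : ℝ, (σ = 1 ∨ σ = -1) → ∃ ξ ∈ D.K, D.ψ j ξ - D.n j = σ)
    (j k : Fin 2) (hjk : ∀ i, i = j ∨ i = k) (s : Fin 2 → ℝ) (hs : ∀ i, s i = 1 ∨ s i = -1)
    (hj : 1 ≤ s j * (D.ψ j (D.Y y) - D.n j)) (hk : -1 < s k * (D.ψ k (D.Y y) - D.n k)) :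
    ∃ v : E d, (∀ b, y b * D.φ b v < 0) ∧ ∀ i, s i * D.ψ i v < 0 := by
  have b0 : ∀ b, y b * (D.φ b ξ₀ - D.φ b (D.Y y)) < 0 := by
    intro b
    have h1 := abs_lt.1 (h₀ b)
    rw [D.phi_Y]
    rcases hy b with h | h <;> rw [h] <;> linarith
  have s1 : ∀ i, s i * (D.ψ i ξ₀ - D.n i) < 1 := by
    intro i
    have h1 := abs_lt.1 (h₀' i)
    rcases hs i with h | h <;> rw [h] <;> linarith
  rcases le_or_gt 1 (s k * (D.ψ k (D.Y y) - D.n k)) with hk1 | hk1
  · refine ⟨ξ₀ - D.Y y, fun b => ?_, fun i => ?_⟩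
    · rw [map_sub]; exact b0 b
    · rw [map_sub]
      have h1 := s1 i
      rcases hjk i with rfl | rfl <;> nlinarith
  · obtain ⟨ξ, hξ, hξ1⟩ := tight k (-s k) (by rcases hs k with h | h <;> rw [h] <;> norm_num)
    set q := s k * (D.ψ k (D.Y y) - D.n k) with hq
    set ε : ℝ := (1 + q) / 2 with hε
    have hε0 : 0 < ε := by rw [hε]; linarith
    refine ⟨(ξ - D.Y y) + ε • (ξ₀ - D.Y y), fun b => ?_, fun i => ?_⟩
    · rw [map_add, map_smul, map_sub, map_sub, smul_eq_mul, mul_add]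
      have h1 : y b * (D.φ b ξ - D.φ b (D.Y y)) ≤ 0 := by
        have h2 := abs_le.1 (hξ.1 b)
        rw [D.phi_Y]
        rcases hy b with h | h <;> rw [h] <;> linarith
      have h3 := b0 b
      have h4 : y b * (ε * (D.φ b ξ₀ - D.φ b (D.Y y))) =
          ε * (y b * (D.φ b ξ₀ - D.φ b (D.Y y))) := by ring
      rw [h4]
      have := mul_neg_of_pos_of_neg hε0 h3
      linarith
    · have hsk2 : s k * s k = 1 := by rcases hs k with h | h <;> rw [h] <;> norm_num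
      rw [map_add, map_smul, map_sub, map_sub, smul_eq_mul, mul_add]
      have h4 : s i * (ε * (D.ψ i ξ₀ - D.ψ i (D.Y y))) =
          ε * (s i * (D.ψ i ξ₀ - D.n i) - s i * (D.ψ i (D.Y y) - D.n i)) := by ring
      have h5 : s i * (D.ψ i ξ - D.ψ i (D.Y y)) =
          s i * (D.ψ i ξ - D.n i) - s i * (D.ψ i (D.Y y) - D.n i) := by ring
      rw [h4, h5]
      have h1 := s1 i
      by_cases hik : i = k
      · subst hik
        rw [← hq, hξ1]
        have h6 : s i * -s i = -1 := by linarith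
        rw [h6]
        have h7 : s i * (D.ψ i ξ₀ - D.n i) - q < 2 := by linarith
        have h8 := mul_lt_mul_of_pos_left h7 hε0
        rw [hε] at h8 ⊢
        linarith
      · have hij : i = j := (hjk i).resolve_right hik
        subst hij
        have h2 := abs_le.1 (hξ.2 i)
        have h6 : s i * (D.ψ i ξ - D.n i) ≤ 1 := by
          rcases hs i with h | h <;> rw [h] <;> linarith
        have h7 : s i * (D.ψ i ξ₀ - D.n i) - s i * (D.ψ i (D.Y y) - D.n i) < 0 := by linarith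
        have := mul_neg_of_pos_of_neg hε0 h7
        linarith

/-- the direction of a vertex of the parallelotope: the pinwheel rule -/
theorem pinwheel (y : Fin d → ℝ) (hy : ∀ b, y b = 1 ∨ y b = -1)
    (ξ₀ : E d) (h₀ : ∀ b, |D.φ b ξ₀ - D.m b| < 1) (h₀' : ∀ j, |D.ψ j ξ₀ - D.n j| < 1)
    (tight : ∀ j, ∀ σ : ℝ, (σ = 1 ∨ σ = -1) → ∃ ξ ∈ D.K, D.ψ j ξ - D.n j = σ) :
    ∃ v : E d, (∀ b, y b * D.φ b v < 0) ∧
      (1 ≤ D.ψ 0 (D.Y y) - D.n 0 → -1 < D.ψ 1 (D.Y y) - D.n 1 → D.ψ 0 v < 0 ∧ D.ψ 1 v < 0) ∧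
      (1 ≤ D.ψ 1 (D.Y y) - D.n 1 → D.ψ 0 (D.Y y) - D.n 0 < 1 → 0 < D.ψ 0 v ∧ D.ψ 1 v < 0) ∧
      (D.ψ 0 (D.Y y) - D.n 0 ≤ -1 → D.ψ 1 (D.Y y) - D.n 1 < 1 → 0 < D.ψ 0 v ∧ 0 < D.ψ 1 v) ∧
      (D.ψ 1 (D.Y y) - D.n 1 ≤ -1 → -1 < D.ψ 0 (D.Y y) - D.n 0 → D.ψ 0 v < 0 ∧ 0 < D.ψ 1 v) := by
  have h2 : ∀ i : Fin 2, i = 0 ∨ i = 1 := by decide
  have h2' : ∀ i : Fin 2, i = 1 ∨ i = 0 := by decide
  set p := D.ψ 0 (D.Y y) - D.n 0 with hp
  set q := D.ψ 1 (D.Y y) - D.n 1 with hq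
  by_cases r1 : 1 ≤ p ∧ -1 < q
  · obtain ⟨v, hv1, hv2⟩ := D.dir y hy ξ₀ h₀ h₀' tight 0 1 h2 ![1, 1]
      (by intro i; fin_cases i <;> simp) (by simpa [← hp] using r1.1) (by simpa [← hq] using r1.2)
    have a0 : D.ψ 0 v < 0 := by simpa using hv2 0
    have a1 : D.ψ 1 v < 0 := by simpa using hv2 1
    exact ⟨v, hv1, fun _ _ => ⟨a0, a1⟩, fun _ h => absurd r1.1 (by linarith),
      fun h _ => absurd r1.1 (by linarith), fun h _ => absurd r1.2 (by linarith)⟩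
  by_cases r2 : 1 ≤ q ∧ p < 1
  · obtain ⟨v, hv1, hv2⟩ := D.dir y hy ξ₀ h₀ h₀' tight 1 0 h2' ![-1, 1]
      (by intro i; fin_cases i <;> simp) (by simpa [← hq] using r2.1)
      (by simp only [Matrix.cons_val_zero, ← hp]; linarith [r2.2])
    have a0 : 0 < D.ψ 0 v := by simpa using hv2 0
    have a1 : D.ψ 1 v < 0 := by simpa using hv2 1
    exact ⟨v, hv1, fun h _ => absurd r2.2 (by linarith), fun _ _ => ⟨a0, a1⟩,
      fun _ h => absurd r2.1 (by linarith), fun h _ => absurd r2.1 (by linarith)⟩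
  by_cases r3 : p ≤ -1 ∧ q < 1
  · obtain ⟨v, hv1, hv2⟩ := D.dir y hy ξ₀ h₀ h₀' tight 0 1 h2 ![-1, -1]
      (by intro i; fin_cases i <;> simp)
      (by simp only [Matrix.cons_val_zero, ← hp]; linarith [r3.1])
      (by simp only [Matrix.cons_val_one, Matrix.cons_val_zero, ← hq]; linarith [r3.2])
    have a0 : 0 < D.ψ 0 v := by simpa using hv2 0
    have a1 : 0 < D.ψ 1 v := by simpa using hv2 1
    exact ⟨v, hv1, fun h _ => absurd r3.1 (by linarith), fun h _ => absurd r3.2 (by linarith),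
      fun _ _ => ⟨a0, a1⟩, fun _ h => absurd r3.1 (by linarith)⟩
  by_cases r4 : q ≤ -1 ∧ -1 < p
  · obtain ⟨v, hv1, hv2⟩ := D.dir y hy ξ₀ h₀ h₀' tight 1 0 h2' ![1, -1]
      (by intro i; fin_cases i <;> simp)
      (by simp only [Matrix.cons_val_one, Matrix.cons_val_zero, ← hq]; linarith [r4.1])
      (by simp only [Matrix.cons_val_zero, ← hp]; linarith [r4.2])
    have a0 : D.ψ 0 v < 0 := by simpa using hv2 0
    have a1 : 0 < D.ψ 1 v := by simpa using hv2 1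
    exact ⟨v, hv1, fun _ h => absurd r4.1 (by linarith), fun h _ => absurd r4.1 (by linarith),
      fun h _ => absurd r4.2 (by linarith), fun _ _ => ⟨a0, a1⟩⟩
  · refine ⟨ξ₀ - D.Y y, fun b => ?_, fun h h' => absurd ⟨h, h'⟩ r1, fun h h' => absurd ⟨h, h'⟩ r2,
      fun h h' => absurd ⟨h, h'⟩ r3, fun h h' => absurd ⟨h, h'⟩ r4⟩
    have h1 := abs_lt.1 (h₀ b)
    rw [map_sub, D.phi_Y]
    rcases hy b with h | h <;> rw [h] <;> linarith

/-- each extreme point is illuminated by the direction of some vertex of the parallelotope -/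
theorem extreme_illum (V : (Fin d → ℝ) → E d)
    (hV : ∀ y : Fin d → ℝ, (∀ b, y b = 1 ∨ y b = -1) → (∀ b, y b * D.φ b (V y) < 0) ∧
      (1 ≤ D.ψ 0 (D.Y y) - D.n 0 → -1 < D.ψ 1 (D.Y y) - D.n 1 →
        D.ψ 0 (V y) < 0 ∧ D.ψ 1 (V y) < 0) ∧
      (1 ≤ D.ψ 1 (D.Y y) - D.n 1 → D.ψ 0 (D.Y y) - D.n 0 < 1 →
        0 < D.ψ 0 (V y) ∧ D.ψ 1 (V y) < 0) ∧
      (D.ψ 0 (D.Y y) - D.n 0 ≤ -1 → D.ψ 1 (D.Y y) - D.n 1 < 1 →
        0 < D.ψ 0 (V y) ∧ 0 < D.ψ 1 (V y)) ∧
      (D.ψ 1 (D.Y y) - D.n 1 ≤ -1 → -1 < D.ψ 0 (D.Y y) - D.n 0 →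
        D.ψ 0 (V y) < 0 ∧ 0 < D.ψ 1 (V y)))
    {x : E d} (hx : x ∈ Set.extremePoints ℝ D.K) :
    ∃ y : Fin d → ℝ, (∀ b, y b = 1 ∨ y b = -1) ∧
      ∃ t : ℝ, 0 < t ∧ x + t • V y ∈ interior D.K := by
  classical
  have hcard := D.extreme_card hx
  have hxK : x ∈ D.K := hx.1
  set t : Fin d → ℝ := fun b => D.φ b x - D.m b with ht
  have hA2 : (univ.filter fun j => |D.ψ j x - D.n j| = 1).card ≤ 2 := by
    calc _ ≤ (univ : Finset (Fin 2)).card := Finset.card_filter_le _ _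
      _ = 2 := by simp
  have hF2 : (univ.filter fun b => |t b| < 1).card ≤ 2 := hcard.trans hA2
  -- the cube constraints
  have cube : ∀ y : Fin d → ℝ, (∀ b, y b = 1 ∨ y b = -1) → (∀ b, |t b| = 1 → y b = t b) →
      ∀ b, |D.φ b x - D.m b| = 1 → (D.φ b x - D.m b) * D.φ b (V y) < 0 := by
    intro y hy hyt b hb
    have h1 := (hV y hy).1 b
    rw [hyt b hb] at h1
    exact h1
  have hψ : ∀ (y : Fin d → ℝ) (j : Fin 2), D.ψ j (D.Y y) - D.n j =
      (D.ψ j x - D.n j) + ∑ b, D.C j b * (y b - t b) := by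
    intro y j
    rw [D.psi_Y y x j, ht]
    ring
  have hneg : ∀ (j : Fin 2) (y : Fin d → ℝ),
      ∑ b, (-D.C j b) * (y b - t b) = - ∑ b, D.C j b * (y b - t b) := by
    intro j y
    rw [← Finset.sum_neg_distrib]
    refine Finset.sum_congr rfl fun b _ => by ring
  have hleN : ∀ j b, |-D.C j b| ≤ 1 := by
    intro j b
    rw [abs_neg]
    exact D.le j b
  -- reformulate the conclusion
  have fin : ∀ y : Fin d → ℝ, (∀ b, y b = 1 ∨ y b = -1) → (∀ b, |t b| = 1 → y b = t b) →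
      (|D.ψ 0 x - D.n 0| = 1 → (D.ψ 0 x - D.n 0) * D.ψ 0 (V y) < 0) →
      (|D.ψ 1 x - D.n 1| = 1 → (D.ψ 1 x - D.n 1) * D.ψ 1 (V y) < 0) →
      ∃ y : Fin d → ℝ, (∀ b, y b = 1 ∨ y b = -1) ∧
        ∃ t : ℝ, 0 < t ∧ x + t • V y ∈ interior D.K := by
    intro y hy hyt h0 h1
    refine ⟨y, hy, D.illum hxK (cube y hy hyt) ?_⟩
    intro j
    fin_cases j
    · exact h0
    · exact h1
  have one : (0:ℝ) ≤ 1 := by norm_num
  by_cases a0 : |D.ψ 0 x - D.n 0| = 1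
  · by_cases a1 : |D.ψ 1 x - D.n 1| = 1
    · rcases (abs_eq one).1 a0 with p0 | p0 <;> rcases (abs_eq one).1 a1 with p1 | p1
      · obtain ⟨y, hy, hyt, s1, s2⟩ := round t (D.C 0) (D.C 1) hxK.1 (D.le 1) hF2
        have h := (hV y hy).2.1 (by rw [hψ, p0]; linarith) (by rw [hψ, p1]; linarith)
        exact fin y hy hyt (fun _ => by rw [p0]; linarith [h.1]) (fun _ => by rw [p1]; linarith [h.2])
      · obtain ⟨y, hy, hyt, s1, s2⟩ := round t (fun b => -D.C 1 b) (D.C 0) hxK.1 (D.le 0) hF2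
        rw [hneg] at s1
        have h := (hV y hy).2.2.2.2 (by rw [hψ, p1]; linarith) (by rw [hψ, p0]; linarith)
        exact fin y hy hyt (fun _ => by rw [p0]; linarith [h.1]) (fun _ => by rw [p1]; linarith [h.2])
      · obtain ⟨y, hy, hyt, s1, s2⟩ := round t (D.C 1) (fun b => -D.C 0 b) hxK.1 (hleN 0) hF2
        rw [hneg] at s2
        have h := (hV y hy).2.2.1 (by rw [hψ, p1]; linarith) (by rw [hψ, p0]; linarith)
        exact fin y hy hyt (fun _ => by rw [p0]; linarith [h.1]) (fun _ => by rw [p1]; linarith [h.2])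
      · obtain ⟨y, hy, hyt, s1, s2⟩ := round t (fun b => -D.C 0 b) (fun b => -D.C 1 b) hxK.1
          (hleN 1) hF2
        rw [hneg] at s1 s2
        have h := (hV y hy).2.2.2.1 (by rw [hψ, p0]; linarith) (by rw [hψ, p1]; linarith)
        exact fin y hy hyt (fun _ => by rw [p0]; linarith [h.1]) (fun _ => by rw [p1]; linarith [h.2])
    · have v1 : ∀ y, |D.ψ 1 x - D.n 1| = 1 → (D.ψ 1 x - D.n 1) * D.ψ 1 (V y) < 0 :=
        fun y h => absurd h a1
      rcases (abs_eq one).1 a0 with p0 | p0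
      · obtain ⟨y, hy, hyt, s1, -⟩ := round t (D.C 0) (fun _ => 0) hxK.1 (by simp) hF2
        have q0 : 1 ≤ D.ψ 0 (D.Y y) - D.n 0 := by rw [hψ, p0]; linarith
        have h : D.ψ 0 (V y) < 0 := by
          rcases lt_or_ge (-1) (D.ψ 1 (D.Y y) - D.n 1) with h1 | h1
          · exact ((hV y hy).2.1 q0 h1).1
          · exact ((hV y hy).2.2.2.2 h1 (by linarith)).1
        exact fin y hy hyt (fun _ => by rw [p0]; linarith) (v1 y)
      · obtain ⟨y, hy, hyt, s1, -⟩ := round t (fun b => -D.C 0 b) (fun _ => 0) hxK.1 (by simp) hF2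
        rw [hneg] at s1
        have q0 : D.ψ 0 (D.Y y) - D.n 0 ≤ -1 := by rw [hψ, p0]; linarith
        have h : 0 < D.ψ 0 (V y) := by
          rcases lt_or_ge (D.ψ 1 (D.Y y) - D.n 1) 1 with h1 | h1
          · exact ((hV y hy).2.2.2.1 q0 h1).1
          · exact ((hV y hy).2.2.1 h1 (by linarith)).1
        exact fin y hy hyt (fun _ => by rw [p0]; linarith) (v1 y)
  · have v0 : ∀ y, |D.ψ 0 x - D.n 0| = 1 → (D.ψ 0 x - D.n 0) * D.ψ 0 (V y) < 0 :=
      fun y h => absurd h a0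
    by_cases a1 : |D.ψ 1 x - D.n 1| = 1
    · rcases (abs_eq one).1 a1 with p1 | p1
      · obtain ⟨y, hy, hyt, s1, -⟩ := round t (D.C 1) (fun _ => 0) hxK.1 (by simp) hF2
        have q1 : 1 ≤ D.ψ 1 (D.Y y) - D.n 1 := by rw [hψ, p1]; linarith
        have h : D.ψ 1 (V y) < 0 := by
          rcases lt_or_ge (D.ψ 0 (D.Y y) - D.n 0) 1 with h1 | h1
          · exact ((hV y hy).2.2.1 q1 h1).2
          · exact ((hV y hy).2.1 h1 (by linarith)).2
        exact fin y hy hyt (v0 y) (fun _ => by rw [p1]; linarith)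
      · obtain ⟨y, hy, hyt, s1, -⟩ := round t (fun b => -D.C 1 b) (fun _ => 0) hxK.1 (by simp) hF2
        rw [hneg] at s1
        have q1 : D.ψ 1 (D.Y y) - D.n 1 ≤ -1 := by rw [hψ, p1]; linarith
        have h : 0 < D.ψ 1 (V y) := by
          rcases lt_or_ge (-1) (D.ψ 0 (D.Y y) - D.n 0) with h1 | h1
          · exact ((hV y hy).2.2.2.2 q1 h1).2
          · exact ((hV y hy).2.2.2.1 h1 (by linarith)).2
        exact fin y hy hyt (v0 y) (fun _ => by rw [p1]; linarith)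
    · obtain ⟨y, hy, hyt, -, -⟩ := round t (fun _ => 0) (fun _ => 0) hxK.1 (by simp) hF2
      exact fin y hy hyt (v0 y) (fun h => absurd h a1)

/-- the covering theorem for the intersection of a parallelotope and two slabs -/
theorem cover (hc : IsCompact D.K)
    (ξ₀ : E d) (h₀ : ∀ b, |D.φ b ξ₀ - D.m b| < 1) (h₀' : ∀ j, |D.ψ j ξ₀ - D.n j| < 1)
    (tight : ∀ j, ∀ σ : ℝ, (σ = 1 ∨ σ = -1) → ∃ ξ ∈ D.K, D.ψ j ξ - D.n j = σ) :
    ∃ T : Finset (E d), T.card ≤ 2 ^ d ∧ D.K ⊆ ⋃ t ∈ T, (fun x => t + x) '' interior D.K := by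
  classical
  have hi : (interior D.K).Nonempty := by
    obtain ⟨t, -, ht⟩ := D.illum (x := ξ₀) (v := 0)
      ⟨fun b => (h₀ b).le, fun j => (h₀' j).le⟩ (fun b hb => absurd hb (h₀ b).ne)
      (fun j hj => absurd hj (h₀' j).ne)
    exact ⟨_, ht⟩
  have hch : ∀ y : Fin d → ℝ, ∃ v : E d, (∀ b, y b = 1 ∨ y b = -1) → (∀ b, y b * D.φ b v < 0) ∧
      (1 ≤ D.ψ 0 (D.Y y) - D.n 0 → -1 < D.ψ 1 (D.Y y) - D.n 1 → D.ψ 0 v < 0 ∧ D.ψ 1 v < 0) ∧
      (1 ≤ D.ψ 1 (D.Y y) - D.n 1 → D.ψ 0 (D.Y y) - D.n 0 < 1 → 0 < D.ψ 0 v ∧ D.ψ 1 v < 0) ∧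
      (D.ψ 0 (D.Y y) - D.n 0 ≤ -1 → D.ψ 1 (D.Y y) - D.n 1 < 1 → 0 < D.ψ 0 v ∧ 0 < D.ψ 1 v) ∧
      (D.ψ 1 (D.Y y) - D.n 1 ≤ -1 → -1 < D.ψ 0 (D.Y y) - D.n 0 → D.ψ 0 v < 0 ∧ 0 < D.ψ 1 v) := by
    intro y
    by_cases hy : ∀ b, y b = 1 ∨ y b = -1
    · obtain ⟨v, hv⟩ := D.pinwheel y hy ξ₀ h₀ h₀' tight
      exact ⟨v, fun _ => hv⟩
    · exact ⟨0, fun h => absurd h hy⟩
  choose V hV using hch
  let sg : (Fin d → Bool) → (Fin d → ℝ) := fun σ b => if σ b then 1 else -1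
  let U : Finset (E d) := univ.image fun σ : Fin d → Bool => V (sg σ)
  have hU : U.card ≤ 2 ^ d := by
    calc U.card ≤ (univ : Finset (Fin d → Bool)).card := Finset.card_image_le
      _ = 2 ^ d := by simp
  have hUne : U.Nonempty := ⟨V (sg fun _ => true), Finset.mem_image_of_mem _ (mem_univ _)⟩
  have hext : ∀ x ∈ Set.extremePoints ℝ D.K, ∃ u ∈ U, ∃ t : ℝ, 0 < t ∧ x + t • u ∈ interior D.K := by
    intro x hx
    obtain ⟨y, hy, ht⟩ := D.extreme_illum V hV hx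
    refine ⟨V y, ?_, ht⟩
    have : y = sg fun b => decide (y b = 1) := by
      funext b
      simp only [sg, decide_eq_true_eq]
      rcases hy b with h | h
      · rw [if_pos h, h]
      · rw [if_neg (by rw [h]; norm_num), h]
    rw [this]
    exact Finset.mem_image_of_mem _ (mem_univ _)
  obtain ⟨T, hT, hcov⟩ := cover_of_illum D.convex hc U hUne fun x hx => by
    obtain ⟨v, hv, hdom⟩ := extreme_dom D.convex hc hi hx
    obtain ⟨u, hu, hut⟩ := hext v hv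
    exact ⟨u, hu, hdom u hut⟩
  exact ⟨T, (by exact_mod_cast hT : T.card ≤ U.card).trans hU, hcov⟩

end Data

end Pool.Agent.N630.Slab
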