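import Pool.Agent.N630.Slab.Main
import Pool.Agent.N630.Slab.Base

set_option autoImplicit false

/-!
# Convex bodies which are intersections of at most `d + 2` slabs
-/

open Finset Filter Topology

namespace Pool.Agent.N630.Slab

open Pool.Agent.TH84.HC
open Pool.Agent.PZ871 (E)

variable {d : ℕ}

theorem exists_larger {K : Set (E d)} {ξ₀ : E d} (h₀ : ξ₀ ∈ interior K) (l : E d →L[ℝ] ℝ)
    (hl : l ≠ 0) : ∃ x ∈ K, l ξ₀ < l x := by
  obtain ⟨v, hv⟩ : ∃ v, l v ≠ 0 := by
    by_contra hcon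
    push Not at hcon
    exact hl (ContinuousLinearMap.ext hcon)
  obtain ⟨w, hw⟩ : ∃ w, 0 < l w := by
    rcases lt_or_gt_of_ne hv with h | h
    · exact ⟨-v, by rw [map_neg]; linarith⟩
    · exact ⟨v, h⟩
  obtain ⟨t, ht, htx⟩ := small_int w h₀
  refine ⟨_, interior_subset htx, ?_⟩
  rw [map_add, map_smul, smul_eq_mul]
  have := mul_pos ht hw
  linarith

theorem normalize {K : Set (E d)} (hc : IsCompact K) {ξ₀ : E d} (h₀ : ξ₀ ∈ interior K)
    (l : E d →L[ℝ] ℝ) (I : Set ℝ) (hI : I.OrdConnected) (hl : ∀ x ∈ K, l x ∈ I) :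
    ∃ (a : E d →L[ℝ] ℝ) (n : ℝ), (∀ x ∈ K, |a x - n| ≤ 1) ∧ (∀ x, |a x - n| ≤ 1 → l x ∈ I) ∧
      (a ≠ 0 → |a ξ₀ - n| < 1 ∧ ∀ σ : ℝ, (σ = 1 ∨ σ = -1) → ∃ ξ ∈ K, a ξ - n = σ) ∧
      (a = 0 → l = 0) := by
  by_cases hl0 : l = 0
  · refine ⟨0, 0, fun x _ => by simp, fun x _ => ?_, fun h => absurd rfl h, fun _ => hl0⟩
    have := hl ξ₀ (interior_subset h₀)
    rw [hl0] at this ⊢
    exact this
  · have hne : K.Nonempty := ⟨ξ₀, interior_subset h₀⟩
    obtain ⟨x1, hx1, hmax⟩ := hc.exists_isMaxOn hne l.continuous.continuousOn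
    obtain ⟨x2, hx2, hmin⟩ := hc.exists_isMinOn hne l.continuous.continuousOn
    have hM : ∀ x ∈ K, l x ≤ l x1 := fun x hx => hmax hx
    have hm : ∀ x ∈ K, l x2 ≤ l x := fun x hx => hmin hx
    have s1 : l ξ₀ < l x1 := by
      obtain ⟨x, hx, h⟩ := exists_larger h₀ l hl0
      exact lt_of_lt_of_le h (hM x hx)
    have s2 : l x2 < l ξ₀ := by
      obtain ⟨x, hx, h⟩ := exists_larger h₀ (-l) (neg_ne_zero.2 hl0)
      have := hm x hx
      simp only [neg_apply] at h
      linarith
    set α := l x2 with hα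
    set β := l x1 with hβ
    have hh : 0 < (β - α) / 2 := by linarith
    have e : ∀ x, (((β - α) / 2)⁻¹ • l) x - ((α + β) / 2) / ((β - α) / 2) =
        (l x - (α + β) / 2) / ((β - α) / 2) := by
      intro x
      rw [smul_apply, smul_eq_mul]
      field_simp
    have habs : ∀ x, |(((β - α) / 2)⁻¹ • l) x - ((α + β) / 2) / ((β - α) / 2)| ≤ 1 ↔
        α ≤ l x ∧ l x ≤ β := by
      intro x
      rw [e, abs_div, abs_of_pos hh, div_le_one hh, abs_le]
      constructor
      · rintro ⟨h1, h2⟩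
        constructor <;> linarith
      · rintro ⟨h1, h2⟩
        constructor <;> linarith
    refine ⟨((β - α) / 2)⁻¹ • l, ((α + β) / 2) / ((β - α) / 2), ?_, ?_, fun _ => ⟨?_, ?_⟩, ?_⟩
    · intro x hx
      exact (habs x).2 ⟨hm x hx, hM x hx⟩
    · intro x hx
      have := (habs x).1 hx
      exact hI.out (hl x2 hx2) (hl x1 hx1) this
    · rw [e, abs_div, abs_of_pos hh, div_lt_one hh, abs_lt]
      constructor <;> linarith
    · rintro σ (rfl | rfl)
      · refine ⟨x1, hx1, ?_⟩
        rw [e, ← hβ, div_eq_iff hh.ne']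
        ring
      · refine ⟨x2, hx2, ?_⟩
        rw [e, ← hα, div_eq_iff hh.ne']
        ring
    · intro h
      exfalso
      rcases smul_eq_zero.1 h with h1 | h1
      · exact (inv_ne_zero hh.ne') h1
      · exact hl0 h1

theorem apply_eq (a : E d →L[ℝ] ℝ) (x : E d) :
    a x = (fun c => a (EuclideanSpace.single c (1:ℝ))) ⬝ᵥ (x : Fin d → ℝ) := by
  have h : x = ∑ c, x c • EuclideanSpace.single c (1:ℝ) := by
    ext k
    simp [Finset.sum_apply, Pi.single_apply]
  conv_lhs => rw [h]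
  rw [map_sum]
  simp only [map_smul, smul_eq_mul, dotProduct]
  refine Finset.sum_congr rfl fun c _ => by ring

theorem few_slabs {ι : Type*} [Fintype ι] (hι : Fintype.card ι ≤ d + 2)
    (φ : ι → (E d →L[ℝ] ℝ)) (I : ι → Set ℝ) (hI : ∀ i, (I i).OrdConnected) (K : Set (E d))
    (hK : K = {x | ∀ i, φ i x ∈ I i}) (hc : IsCompact K) (hi : (interior K).Nonempty) :
    ∃ T : Finset (E d), T.card ≤ 2 ^ d ∧ K ⊆ ⋃ t ∈ T, (fun x => t + x) '' interior K := by
  classical
  obtain ⟨ξ₀, h₀⟩ := hi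
  rcases Nat.eq_zero_or_pos d with hd | hd
  · subst hd
    refine ⟨{0}, by simp, fun x _ => ?_⟩
    have : x = ξ₀ := Subsingleton.elim _ _
    subst this
    simpa using h₀
  have hφ : ∀ i, ∀ x ∈ K, φ i x ∈ I i := by
    intro i x hx
    rw [hK] at hx
    exact hx i
  choose a n h1 h2 h3 h3' using fun i => normalize hc h₀ (φ i) (I i) (hI i) (hφ i)
  -- the functionals separate points
  have hsep : ∀ x : E d, (∀ i, a i x = 0) → x = 0 := by
    intro x hx
    by_contra hx0
    have hmem : ∀ t : ℝ, ξ₀ + t • x ∈ K := by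
      intro t
      rw [hK]
      intro i
      apply h2
      rw [map_add, map_smul, hx i, smul_zero, add_zero]
      exact h1 i ξ₀ (interior_subset h₀)
    obtain ⟨R, hR⟩ := hc.isBounded.exists_norm_le
    have hxn : 0 < ‖x‖ := norm_pos_iff.2 hx0
    have hb := hR _ (hmem ((R + ‖ξ₀‖ + 1) / ‖x‖))
    have hR0 : 0 ≤ R := (norm_nonneg _).trans hb
    have h4 : ‖((R + ‖ξ₀‖ + 1) / ‖x‖) • x‖ = R + ‖ξ₀‖ + 1 := by
      rw [norm_smul, Real.norm_of_nonneg (by positivity)]
      field_simp
    have h5 : ‖((R + ‖ξ₀‖ + 1) / ‖x‖) • x‖ ≤ ‖ξ₀ + ((R + ‖ξ₀‖ + 1) / ‖x‖) • x‖ + ‖ξ₀‖ := by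
      have := norm_sub_le (ξ₀ + ((R + ‖ξ₀‖ + 1) / ‖x‖) • x) ξ₀
      simpa using this
    rw [h4] at h5
    linarith
  let A : ι → Fin d → ℝ := fun i c => a i (EuclideanSpace.single c (1:ℝ))
  have hAa : ∀ i (x : E d), a i x = A i ⬝ᵥ (x : Fin d → ℝ) := fun i x => apply_eq (a i) x
  obtain ⟨B, C, hdet, hC1, hC2⟩ := exists_base A (by
    intro x hx
    have h4 : (WithLp.toLp 2 x : E d) = 0 := by
      apply hsep
      intro i
      rw [hAa]
      exact hx i
    funext c
    have := congrArg (fun z : E d => z c) h4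
    simpa using this)
  set M : Matrix (Fin d) (Fin d) ℝ := Matrix.of fun r => A (B r) with hM
  have hunit : IsUnit M.det := isUnit_iff_ne_zero.2 hdet
  have hBinj : Function.Injective B := by
    intro b c hbc
    by_contra hne
    apply hdet
    refine Matrix.det_zero_of_row_eq hne ?_
    funext k
    simp [hM, hbc]
  have hAne : ∀ i, a i = 0 → A i = 0 := by
    intro i h
    funext c
    simp only [A, h, zero_apply, Pi.zero_apply]
  have hB0 : ∀ b, a (B b) ≠ 0 := by
    intro b h
    apply hdet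
    refine Matrix.det_eq_zero_of_row_eq_zero b fun k => ?_
    rw [hM, Matrix.of_apply, hAne _ h, Pi.zero_apply]
  -- the remaining slabs
  obtain ⟨g, hg0, hg⟩ : ∃ g : Fin 2 → ι, (∀ j, a (g j) ≠ 0) ∧
      ∀ i, a i ≠ 0 → (∃ b, i = B b) ∨ ∃ j, i = g j := by
    set J := univ.filter fun i => a i ≠ 0 ∧ i ∉ univ.image B with hJ
    have hJcard : J.card ≤ 2 := by
      have hdisj : Disjoint J (univ.image B) := by
        rw [Finset.disjoint_left]
        intro i hi hi'
        rw [hJ, Finset.mem_filter] at hi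
        exact hi.2.2 hi'
      have h4 : J.card + (univ.image B).card ≤ Fintype.card ι := by
        rw [← Finset.card_union_of_disjoint hdisj]
        exact Finset.card_le_univ _
      rw [Finset.card_image_of_injective _ hBinj, Finset.card_univ, Fintype.card_fin] at h4
      omega
    have hJ1 : ∀ i, i ∈ J → a i ≠ 0 := fun i hi => (Finset.mem_filter.1 hi).2.1
    have hJ2 : ∀ i, a i ≠ 0 → (∃ b, i = B b) ∨ i ∈ J := by
      intro i hi
      by_cases h : i ∈ univ.image B
      · obtain ⟨b, -, hb⟩ := Finset.mem_image.1 h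
        exact Or.inl ⟨b, hb.symm⟩
      · exact Or.inr (Finset.mem_filter.2 ⟨mem_univ _, hi, h⟩)
    rcases Nat.lt_or_ge J.card 1 with hc0 | hc0
    · have hJe : J = ∅ := Finset.card_eq_zero.1 (by omega)
      refine ⟨fun _ => B ⟨0, hd⟩, fun _ => hB0 _, fun i hi => ?_⟩
      rcases hJ2 i hi with h | h
      · exact Or.inl h
      · rw [hJe] at h
        exact absurd h (Finset.notMem_empty _)
    rcases Nat.lt_or_ge J.card 2 with hc1 | hc1
    · obtain ⟨j, hj⟩ := Finset.card_eq_one.1 (by omega : J.card = 1)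
      refine ⟨fun _ => j, fun _ => hJ1 j (by rw [hj]; simp), fun i hi => ?_⟩
      rcases hJ2 i hi with h | h
      · exact Or.inl h
      · rw [hj, Finset.mem_singleton] at h
        exact Or.inr ⟨0, h⟩
    · obtain ⟨j, k, -, hjk⟩ := Finset.card_eq_two.1 (by omega : J.card = 2)
      refine ⟨![j, k], ?_, fun i hi => ?_⟩
      · intro i
        fin_cases i
        · exact hJ1 j (by rw [hjk]; simp)
        · exact hJ1 k (by rw [hjk]; simp)
      · rcases hJ2 i hi with h | h
        · exact Or.inl h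
        · rw [hjk, Finset.mem_insert, Finset.mem_singleton] at h
          rcases h with h | h
          · exact Or.inr ⟨0, h⟩
          · exact Or.inr ⟨1, h⟩
  let D : Data d :=
    { φ := fun b => a (B b)
      m := fun b => n (B b)
      ψ := fun j => a (g j)
      n := fun j => n (g j)
      C := fun j b => C (g j) b
      e := fun c => WithLp.toLp 2 fun k => M⁻¹ k c
      dual := by
        intro b c
        rw [hAa]
        have h4 : (M * M⁻¹) b c = if b = c then 1 else 0 := by
          rw [Matrix.mul_nonsing_inv _ hunit, Matrix.one_apply]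
        rw [← h4, Matrix.mul_apply]
        rfl
      le := fun j b => hC1 (g j) b
      sum := by
        intro j x
        rw [hAa, hC2 (g j), sum_dotProduct]
        refine Finset.sum_congr rfl fun b _ => ?_
        rw [smul_dotProduct, smul_eq_mul, hAa] }
  have hDK : K = D.K := by
    ext x
    constructor
    · intro hx
      exact ⟨fun b => h1 (B b) x hx, fun j => h1 (g j) x hx⟩
    · rintro ⟨k1, k2⟩
      rw [hK]
      intro i
      apply h2
      by_cases hi0 : a i = 0
      · have h4 := h1 i ξ₀ (interior_subset h₀)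
        rw [hi0] at h4 ⊢
        simpa using h4
      · rcases hg i hi0 with ⟨b, rfl⟩ | ⟨j, rfl⟩
        · exact k1 b
        · exact k2 j
  have := D.cover (by rw [← hDK]; exact hc) ξ₀ (fun b => (h3 (B b) (hB0 b)).1)
    (fun j => (h3 (g j) (hg0 j)).1) (by
      intro j σ hσ
      rw [← hDK]
      exact (h3 (g j) (hg0 j)).2 σ hσ)
  rwa [← hDK] at this

end Pool.Agent.N630.Slab
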